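import Pool.Agent.helper66.LIN.Spec

set_option autoImplicit false

/-! Module AGA of project lin (helper92). -/

namespace LSH.Lin

/-- splitting a decreasing chain: a prefix, a point, the rest -/
theorem AGA_split (hSX : SX_stmt) (C : Finset Pt) (hg : Gen (C : Set Pt)) (hd : Dec C) (k l : ℕ)
    (h : k + 1 + l ≤ C.card) : ∃ (C₁ C₂ : Finset Pt) (x : Pt), C₁ ⊆ C ∧ C₂ ⊆ C ∧ x ∈ C ∧
      C₁.card = k ∧ l ≤ C₂.card ∧ (∀ p ∈ C₁, p.1 < x.1 ∧ x.2 < p.2) ∧ (∀ p ∈ C₂, x.1 < p.1 ∧ p.2 < x.2) := by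
  classical
  obtain ⟨C₁, h1, h2, h3⟩ := hSX C k hg (by omega)
  have hR : (C \ C₁).card = C.card - k := by rw [Finset.card_sdiff_of_subset h1, h2]
  have hRg : Gen ((C \ C₁ : Finset Pt) : Set Pt) := fun p hp q hq hpq =>
    hg p (Finset.sdiff_subset hp) q (Finset.sdiff_subset hq) hpq
  obtain ⟨Q, h4, h5, h6⟩ := hSX (C \ C₁) 1 hRg (by omega)
  obtain ⟨x, rfl⟩ := Finset.card_eq_one.1 h5
  have hx : x ∈ C \ C₁ := h4 (Finset.mem_singleton_self x)
  have hxC : x ∈ C := Finset.sdiff_subset hx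
  refine ⟨C₁, (C \ C₁) \ {x}, x, h1, Finset.sdiff_subset.trans Finset.sdiff_subset, hxC, h2, ?_, ?_, ?_⟩
  · rw [Finset.card_sdiff_of_subset h4, h5]
    omega
  · intro p hp
    have h7 := h3 p hp x hx
    exact ⟨h7, hd p (h1 hp) x hxC h7⟩
  · intro p hp
    have h7 := h6 x (Finset.mem_singleton_self x) p hp
    exact ⟨h7, hd x hxC p (Finset.sdiff_subset (Finset.sdiff_subset hp)) h7⟩

theorem AGA_mono {t : BT} {C C' : Finset Pt} {G : GT} (h : Pre t C G) (hC : ∀ p ∈ C, p ∈ C') : Pre t C' G :=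
  ⟨h.shape, fun p hp => hC p (h.pts p hp), h.nodup, h.nc, h.ray⟩

theorem AGA (hBBA : BBA_stmt) (hPDE : PDE_stmt) (hSX : SX_stmt) (hGTF : GTF_stmt) : AGA_stmt := by
  intro t
  induction t with
  | leaf =>
    intro C _ _ hc
    obtain ⟨x, hx⟩ : C.Nonempty := Finset.card_pos.1 (lt_of_lt_of_le one_pos hc)
    refine ⟨.leaf x, ⟨rfl, ?_, Multiset.nodup_singleton x, List.Pairwise.nil, ?_⟩, ?_⟩
    · intro p hp
      rw [Multiset.mem_singleton.1 hp]
      exact hx
    · intro i hi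
      exact absurd hi (Multiset.notMem_zero i)
    · intro e he
      exact absurd he List.not_mem_nil
  | un t _ =>
    intro C _ _ hc
    obtain ⟨x, hx⟩ : C.Nonempty := Finset.card_pos.1 (lt_of_lt_of_le one_pos hc)
    refine ⟨.un x t, ⟨rfl, ?_, Multiset.nodup_singleton x, List.Pairwise.nil, ?_⟩, ?_⟩
    · intro p hp
      rw [Multiset.mem_singleton.1 hp]
      exact hx
    · intro i _ e he
      exact absurd he List.not_mem_nil
    · intro e he
      exact absurd he List.not_mem_nil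
  | br s t ihs iht =>
    intro C hg hd hc
    classical
    have hsub : ∀ D : Finset Pt, D ⊆ C → Gen (D : Set Pt) ∧ Dec D := fun D hD =>
      ⟨fun p hp q hq hpq => hg p (hD hp) q (hD hq) hpq, fun p hp q hq => hd p (hD hp) q (hD hq)⟩
    have key : ∀ a b : BT, a.al + 1 + b.pl ≤ C.card →
        (∀ C : Finset Pt, Gen (C : Set Pt) → Dec C → a.al ≤ C.card → ∃ G : GT, Pre a C G ∧ Below G) →
        (∃ G : GT, Pre (.br a b) C G ∧ Below G) ∧ ∃ G : GT, Pre (.br b a) C G ∧ Below G := by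
      intro a b hab ih
      obtain ⟨C₁, C₂, x, h1, h2, hx, h3, h4, h5, h6⟩ := AGA_split hSX C hg hd a.al b.pl hab
      obtain ⟨G₁, h7, h8⟩ := ih C₁ (hsub C₁ h1).1 (hsub C₁ h1).2 h3.ge
      obtain ⟨G₂, h9, h10⟩ := hPDE b C₂ (hsub C₂ h2).1 (hsub C₂ h2).2 h4
      have hall : ∀ p ∈ insert x (C₁ ∪ C₂), p ∈ C := by
        intro p hp
        rcases Finset.mem_insert.1 hp with rfl | hp
        · exact hx
        · rcases Finset.mem_union.1 hp with hp | hp
          · exact h1 hp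
          · exact h2 hp
      have hgen : Gen (insert x ((C₁ : Set Pt) ∪ (C₂ : Set Pt))) := by
        have hall2 : ∀ p ∈ insert x ((C₁ : Set Pt) ∪ (C₂ : Set Pt)), p ∈ (C : Set Pt) := by
          rintro p (rfl | hp | hp)
          · exact hx
          · exact h1 hp
          · exact h2 hp
        exact fun p hp q hq hpq => hg p (hall2 p hp) q (hall2 q hq) hpq
      obtain ⟨⟨h11, h12⟩, h13, h14⟩ := hBBA a b C₁ C₂ x G₁ G₂ hgen h5 h6 (hsub C₁ h1).2 h7 h8 h9 h10
      refine ⟨⟨_, AGA_mono h11 ?_, h12⟩, ⟨_, AGA_mono h13 ?_, h14⟩⟩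
      · intro p hp
        exact hall p hp
      · intro p hp
        exact hall p hp
    rw [BT.al] at hc
    split_ifs at hc with h
    · exact (key s t hc ihs).1
    · exact (key t s hc iht).2

end LSH.Lin
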